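import Pool.Agent.Y6.H.Stm

/-!
# Project HR (helper6), job HR-CNT: the number of special modes
-/

set_option autoImplicit false

namespace Pool.Agent.Y287.HR.Cnt

open Pool.Agent.Y6.M (Z3 nsq len Md br)
open Pool.Agent.Y6.F (al kx Xm Ym ln)
open Pool.Agent.Y6.H

theorem le_len (k : Z3) (j : Fin 3) (a : ℕ) (h : k j = (a : ℤ) ∨ k j = -(a : ℤ)) :
    (a : ℝ) ≤ len k := by
  unfold len
  apply Real.le_sqrt_of_sq_le
  have h1 : (k j) ^ 2 ≤ nsq k := by
    unfold nsq
    exact Finset.single_le_sum (f := fun j => (k j) ^ 2) (fun i _ => sq_nonneg (k i))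
      (Finset.mem_univ j)
  have h2 : (k j) ^ 2 = (a : ℤ) ^ 2 := by
    rcases h with h | h
    · rw [h]
    · rw [h, neg_sq]
  rw [h2] at h1
  exact_mod_cast h1

theorem kx_self (n : ℕ) : kx n ⟨n % 3, Nat.mod_lt _ (by norm_num)⟩ = (al n : ℤ) := if_pos rfl

theorem ky_succ (n : ℕ) :
    (kx n + kx (n + 1)) ⟨(n + 1) % 3, Nat.mod_lt _ (by norm_num)⟩ = (al (n + 1) : ℤ) := by
  have h1 : kx n ⟨(n + 1) % 3, Nat.mod_lt _ (by norm_num)⟩ = 0 := if_neg (by
    show ¬ (n + 1) % 3 = n % 3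
    omega)
  rw [Pi.add_apply, h1, kx_self, zero_add]

theorem X_le (n : ℕ) : (al n : ℝ) ≤ ln (Xm n) ∧ (al n : ℝ) ≤ ln (br (Xm n)) := by
  constructor
  · exact le_len _ _ _ (Or.inl (kx_self n))
  · refine le_len _ ⟨n % 3, Nat.mod_lt _ (by norm_num)⟩ _ (Or.inr ?_)
    show -(kx n ⟨n % 3, Nat.mod_lt _ (by norm_num)⟩) = _
    rw [kx_self]

theorem Y_le (n : ℕ) : (al (n + 1) : ℝ) ≤ ln (Ym n) ∧ (al (n + 1) : ℝ) ≤ ln (br (Ym n)) := by
  constructor
  · exact le_len _ _ _ (Or.inl (ky_succ n))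
  · refine le_len _ ⟨(n + 1) % 3, Nat.mod_lt _ (by norm_num)⟩ _ (Or.inr ?_)
    show -((kx n + kx (n + 1)) ⟨(n + 1) % 3, Nat.mod_lt _ (by norm_num)⟩) = _
    rw [ky_succ]

theorem log_al (n : ℕ) : Real.exp (n + 1) ≤ Real.log (al n) := by
  have he : Real.exp 1 < 3 := lt_trans Real.exp_one_lt_d9 (by norm_num)
  have h3 : ∀ n : ℕ, (3 : ℝ) ^ (n + 1) ≤ Real.log (al n) := by
    intro n
    induction n with
    | zero =>
      have h1 : ((al 0 : ℕ) : ℝ) = (10 : ℝ) ^ 100 := by
        show ((10 ^ 100 : ℕ) : ℝ) = _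
        rw [Nat.cast_pow]
        rfl
      have h2 : 1 ≤ Real.log 10 := by
        rw [Real.le_log_iff_exp_le (by norm_num)]
        linarith
      rw [h1, Real.log_pow]
      push_cast
      linarith
    | succ n ih =>
      have h1 : ((al (n + 1) : ℕ) : ℝ) = (al n : ℝ) ^ (2 * n + 60) := by
        show ((al n ^ (2 * n + 60) : ℕ) : ℝ) = _
        rw [Nat.cast_pow]
      rw [h1, Real.log_pow]
      have h2 : (3 : ℝ) ≤ ((2 * n + 60 : ℕ) : ℝ) := by
        push_cast
        have : (0 : ℝ) ≤ n := Nat.cast_nonneg n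
        linarith
      have h4 : (0 : ℝ) < 3 ^ (n + 1) := by positivity
      calc (3 : ℝ) ^ (n + 1 + 1) = 3 * 3 ^ (n + 1) := by rw [pow_succ]; ring
        _ ≤ ((2 * n + 60 : ℕ) : ℝ) * Real.log (al n) := by gcongr
  refine le_trans ?_ (h3 n)
  calc Real.exp (n + 1) = Real.exp 1 ^ (n + 1) := by
        rw [← Real.exp_nat_mul]
        congr 1
        push_cast
        ring
    _ ≤ 3 ^ (n + 1) := by gcongr

theorem lt_of_al {N : ℝ} {n : ℕ} (h : (al n : ℝ) ≤ N) : (n : ℝ) + 1 ≤ Real.log (Real.log N) := by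
  have h1 := log_al n
  have h2 : 0 < Real.exp ((n : ℝ) + 1) := Real.exp_pos _
  have h0 : (0 : ℝ) < (al n : ℝ) := by exact_mod_cast Pool.Agent.Y6.F.al_pos n
  have h3 : Real.log (al n) ≤ Real.log N := Real.log_le_log h0 h
  rw [Real.le_log_iff_exp_le (by linarith)]
  linarith

theorem t_CNT : S_CNT := by
  classical
  intro N hN
  have he : Real.exp 1 < 3 := lt_trans Real.exp_one_lt_d9 (by norm_num)
  have hl1 : 1 ≤ Real.log N := by
    rw [Real.le_log_iff_exp_le (by linarith)]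
    linarith
  have hl0 : 0 ≤ Real.log (Real.log N) := Real.log_nonneg hl1
  set k : ℕ := ⌊Real.log (Real.log N)⌋₊ with hk
  have hkl : (k : ℝ) ≤ Real.log (Real.log N) := Nat.floor_le hl0
  have hlt : ∀ n : ℕ, (al n : ℝ) ≤ N → n < k := by
    intro n h
    have h1 := lt_of_al h
    have h2 : n + 1 ≤ k := Nat.le_floor (by push_cast; exact h1)
    omega
  set T : Finset ℕ := Finset.range k with hT
  set F : Finset Md := (T.image Xm ∪ T.image (fun n => br (Xm n))) ∪
    (T.image Ym ∪ T.image (fun n => br (Ym n))) with hF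
  have hsub : {i : Md | Sp i ∧ ln i ≤ N} ⊆ (F : Set Md) := by
    rintro i ⟨⟨n, hi⟩, hiN⟩
    rw [Finset.mem_coe, hF]
    rcases hi with rfl | rfl | rfl | rfl
    · exact Finset.mem_union_left _ (Finset.mem_union_left _ (Finset.mem_image_of_mem _
        (Finset.mem_range.2 (hlt n ((X_le n).1.trans hiN)))))
    · exact Finset.mem_union_left _ (Finset.mem_union_right _ (Finset.mem_image_of_mem
        (fun n => br (Xm n)) (Finset.mem_range.2 (hlt n ((X_le n).2.trans hiN)))))
    · have h1 := hlt (n + 1) ((Y_le n).1.trans hiN)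
      exact Finset.mem_union_right _ (Finset.mem_union_left _ (Finset.mem_image_of_mem _
        (Finset.mem_range.2 (by omega))))
    · have h1 := hlt (n + 1) ((Y_le n).2.trans hiN)
      exact Finset.mem_union_right _ (Finset.mem_union_right _ (Finset.mem_image_of_mem
        (fun n => br (Ym n)) (Finset.mem_range.2 (by omega))))
  refine ⟨F.finite_toSet.subset hsub, ?_⟩
  have h1 : {i : Md | Sp i ∧ ln i ≤ N}.ncard ≤ F.card := by
    rw [← Set.ncard_coe_finset]
    exact Set.ncard_le_ncard hsub F.finite_toSet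
  have hc : ∀ f : ℕ → Md, (T.image f).card ≤ k := fun f =>
    Finset.card_image_le.trans (by rw [hT, Finset.card_range])
  have h2 : F.card ≤ 4 * k := by
    have a1 := Finset.card_union_le (T.image Xm ∪ T.image (fun n => br (Xm n)))
      (T.image Ym ∪ T.image (fun n => br (Ym n)))
    have a2 := Finset.card_union_le (T.image Xm) (T.image (fun n => br (Xm n)))
    have a3 := Finset.card_union_le (T.image Ym) (T.image (fun n => br (Ym n)))
    have b1 := hc Xm
    have b2 := hc (fun n => br (Xm n))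
    have b3 := hc Ym
    have b4 := hc (fun n => br (Ym n))
    rw [hF]
    omega
  calc ({i : Md | Sp i ∧ ln i ≤ N}.ncard : ℝ) ≤ ((4 * k : ℕ) : ℝ) := by
        exact_mod_cast h1.trans h2
    _ = 4 * (k : ℝ) := by push_cast; ring
    _ ≤ _ := by linarith

end Pool.Agent.Y287.HR.Cnt
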